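import Pool.Agent.V7H85.LV.D

set_option autoImplicit false
set_option linter.unusedSectionVars false

open Filter Topology Set Metric MeasureTheory

namespace Pool.Agent.V7H85.LV

open Pool.Agent.H789R2.AN Pool.Agent.H721R2 Pool.Agent.Y321.PJ Pool.Agent.N520.T Pool.Agent.Y330.G

section gen

variable {X : Type*}

/-- Bounded Birkhoff sums. -/
def BddSums (f : X → X) (φ : X → ℝ) : Prop :=
  ∃ C : ℝ, ∀ (n : ℕ) (x : X), |birkhoffSum f φ n x| ≤ C

theorem bsum_coc {f : X → X} {u φ : X → ℝ} (h : ∀ x, φ x = u (f x) - u x) (n : ℕ) (y : X) :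
    birkhoffSum f φ n y = u (f^[n] y) - u y := by
  induction n with
  | zero => simp
  | succ n ih =>
    rw [birkhoffSum_succ, ih, Function.iterate_succ_apply', h]
    ring

theorem bsum_mul {f : X → X} {φ : X → ℝ} {p : X} {q : ℕ} (hp : f^[q] p = p) (k : ℕ) :
    birkhoffSum f φ (q * k) p = k * birkhoffSum f φ q p := by
  induction k with
  | zero => simp
  | succ k ih =>
    have h1 : f^[q * k] p = p := by
      rw [Function.iterate_mul]
      exact Function.iterate_fixed hp k
    rw [Nat.mul_succ, birkhoffSum_add, ih, h1]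
    push_cast
    ring

theorem zero_of_bdd {f : X → X} {φ : X → ℝ} (h : BddSums f φ) : Zero f φ := by
  obtain ⟨C, hC⟩ := h
  intro p q _ hp
  by_contra hne
  have hpos : 0 < |birkhoffSum f φ q p| := abs_pos.mpr hne
  obtain ⟨k, hk⟩ := exists_nat_gt (C / |birkhoffSum f φ q p|)
  have h1 := hC (q * k) p
  rw [bsum_mul hp, abs_mul, Nat.abs_cast] at h1
  rw [div_lt_iff₀ hpos] at hk
  linarith

theorem bdd_of_cob {f : X → X} {φ u : X → ℝ} {C : ℝ} (hu : ∀ x, |u x| ≤ C)
    (h : ∀ x, φ x = u (f x) - u x) : BddSums f φ := by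
  refine ⟨C + C, fun n x => ?_⟩
  rw [bsum_coc h]
  have h1 := abs_sub (u (f^[n] x)) (u x)
  have h2 := hu (f^[n] x)
  have h3 := hu x
  linarith

/-- Bounded Birkhoff sums have a bounded Borel transfer function. -/
theorem cob_of_bdd [TopologicalSpace X] [MeasurableSpace X] [BorelSpace X] {f : X → X}
    (hf : Continuous f) {φ : X → ℝ} (hφ : Continuous φ) (h : BddSums f φ) :
    ∃ u : X → ℝ, Measurable u ∧ (∃ C, ∀ x, |u x| ≤ C) ∧ ∀ x, φ x = u (f x) - u x := by
  obtain ⟨C, hC⟩ := h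
  have hcont : ∀ n, Continuous (fun x => birkhoffSum f φ n x) := by
    intro n
    unfold birkhoffSum
    exact continuous_finsetSum _ fun i _ => hφ.comp (hf.iterate i)
  have hbu : ∀ x, IsBoundedUnder (· ≤ ·) atTop (fun n => birkhoffSum f φ n x) := fun x =>
    isBoundedUnder_of ⟨C, fun n => (abs_le.mp (hC n x)).2⟩
  have hbl : ∀ x, IsBoundedUnder (· ≥ ·) atTop (fun n => birkhoffSum f φ n x) := fun x =>
    isBoundedUnder_of ⟨-C, fun n => (abs_le.mp (hC n x)).1⟩
  refine ⟨fun x => -limsup (fun n => birkhoffSum f φ n x) atTop, ?_, ⟨C, fun x => ?_⟩, fun x => ?_⟩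
  · exact (Measurable.limsup fun n => (hcont n).measurable).neg
  · rw [abs_neg, abs_le]
    constructor
    · exact le_limsup_of_frequently_le (Frequently.of_forall fun n => (abs_le.mp (hC n x)).1) (hbu x)
    · exact limsup_le_of_le ((hbl x).isCoboundedUnder_le) (Eventually.of_forall fun n =>
        (abs_le.mp (hC n x)).2)
  · have e1 : ∀ n, birkhoffSum f φ n (f x) = birkhoffSum f φ (n + 1) x + (-φ x) := by
      intro n
      rw [birkhoffSum_succ']
      ring
    have e2 : limsup (fun n => birkhoffSum f φ n (f x)) atTop =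
        limsup (fun n => birkhoffSum f φ n x) atTop + (-φ x) := by
      simp_rw [e1]
      rw [← limsup_nat_add (fun n => birkhoffSum f φ n x) 1]
      exact limsup_add_const _ (fun n => birkhoffSum f φ (n + 1) x) (-φ x)
        (isBoundedUnder_of ⟨C, fun n => (abs_le.mp (hC _ x)).2⟩)
        (isBoundedUnder_of (r := (· ≥ ·)) ⟨-C, fun n => (abs_le.mp (hC _ x)).1⟩).isCoboundedUnder_le
    show φ x = -limsup (fun n => birkhoffSum f φ n (f x)) atTop -
      -limsup (fun n => birkhoffSum f φ n x) atTop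
    rw [e2]
    ring

/-- Functions with bounded Birkhoff sums are uniform limits of continuous coboundaries. -/
theorem lim_of_bdd [TopologicalSpace X] {f : X → X} (hf : Continuous f) {φ : X → ℝ}
    (hφ : Continuous φ) (h : BddSums f φ) : ∀ ε > 0, ∃ u : X → ℝ, Continuous u ∧
      ∀ x, |φ x - (u (f x) - u x)| ≤ ε := by
  obtain ⟨C, hC⟩ := h
  intro ε hε
  obtain ⟨n, hn⟩ := exists_nat_gt (C / ε)
  by_cases hn0 : n = 0
  · subst hn0
    refine ⟨fun _ => 0, continuous_const, fun x => ?_⟩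
    have h1 := hC 1 x
    rw [birkhoffSum_one] at h1
    rw [Nat.cast_zero, div_lt_iff₀ hε, zero_mul] at hn
    rw [sub_zero, sub_zero]
    have := abs_nonneg (φ x)
    linarith
  have hn1 : (0 : ℝ) < n := by exact_mod_cast Nat.pos_of_ne_zero hn0
  have hcont : ∀ n, Continuous (fun x => birkhoffSum f φ n x) := by
    intro n
    unfold birkhoffSum
    exact continuous_finsetSum _ fun i _ => hφ.comp (hf.iterate i)
  refine ⟨fun x => -((1 / n : ℝ) * ∑ k ∈ Finset.range n, birkhoffSum f φ (k + 1) x), ?_, fun x => ?_⟩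
  · exact (continuous_const.mul (continuous_finsetSum _ fun i _ => hcont _)).neg
  · have e1 : ∀ k, birkhoffSum f φ (k + 1) (f x) = birkhoffSum f φ (k + 1 + 1) x - φ x := by
      intro k
      rw [birkhoffSum_succ' (f := f) (n := k + 1)]
      ring
    have e2 : ∑ k ∈ Finset.range n, birkhoffSum f φ (k + 1) (f x) =
        ∑ k ∈ Finset.range n, birkhoffSum f φ (k + 1) x +
          (birkhoffSum f φ (n + 1) x - birkhoffSum f φ 1 x) - n * φ x := by
      rw [Finset.sum_congr rfl fun k _ => e1 k, Finset.sum_sub_distrib, Finset.sum_const,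
        Finset.card_range, nsmul_eq_mul]
      have := Finset.sum_range_sub (fun k => birkhoffSum f φ (k + 1) x) n
      rw [Finset.sum_sub_distrib] at this
      simp only [zero_add] at this
      linarith
    have e3 : φ x - (-((1 / n : ℝ) * ∑ k ∈ Finset.range n, birkhoffSum f φ (k + 1) (f x)) -
        -((1 / n : ℝ) * ∑ k ∈ Finset.range n, birkhoffSum f φ (k + 1) x)) =
        (1 / n : ℝ) * birkhoffSum f φ n (f x) := by
      rw [e2, birkhoffSum_one, birkhoffSum_succ']
      field_simp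
      ring
    rw [e3, abs_mul, abs_of_pos (by positivity), one_div, inv_mul_le_iff₀ hn1]
    have h1 := hC n (f x)
    rw [div_lt_iff₀ hε] at hn
    linarith

theorem zero_of_lim {f : X → X} {φ : X → ℝ}
    (h : ∀ ε > 0, ∃ u : X → ℝ, ∀ x, |φ x - (u (f x) - u x)| ≤ ε) : Zero f φ := by
  intro p q hq hp
  have hq0 : (0 : ℝ) < q := by exact_mod_cast hq
  by_contra hne
  have hpos : 0 < |birkhoffSum f φ q p| := abs_pos.mpr hne
  obtain ⟨u, hu⟩ := h (|birkhoffSum f φ q p| / (2 * q)) (by positivity)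
  have h1 : birkhoffSum f φ q p = ∑ k ∈ Finset.range q,
      (φ (f^[k] p) - (u (f (f^[k] p)) - u (f^[k] p))) := by
    rw [Finset.sum_sub_distrib]
    have h2 := bsum_coc (f := f) (u := u) (φ := fun x => u (f x) - u x) (fun _ => rfl) q p
    rw [hp, sub_self] at h2
    unfold birkhoffSum at h2 ⊢
    rw [h2, sub_zero]
  have h2 : |birkhoffSum f φ q p| ≤ ∑ k ∈ Finset.range q, |birkhoffSum f φ q p| / (2 * q) := by
    conv_lhs => rw [h1]
    exact (Finset.abs_sum_le_sum_abs _ _).trans (Finset.sum_le_sum fun k _ => hu _)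
  rw [Finset.sum_const, Finset.card_range, nsmul_eq_mul] at h2
  have h3 : (q : ℝ) * (|birkhoffSum f φ q p| / (2 * q)) = |birkhoffSum f φ q p| / 2 := by
    field_simp
  rw [h3] at h2
  linarith

end gen

section two

variable {X Y : Type*} [MetricSpace X] [CompactSpace X] [MetricSpace Y] [CompactSpace Y]

theorem zero_transfer {h : X ≃ₜ Y} {f : X ≃ₜ X} {f' : Y ≃ₜ Y} (hf : ∀ x, h (f x) = f' (h x))
    {N : ℕ} (hN : 1 ≤ N) {φ : X → ℝ} (hz : Zero f φ) :
    Zero (iterHomeo f' N) (fun y => birkhoffSum f φ N (h.symm y)) := by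
  intro p q hq hp
  rw [bsum_pow hf]
  apply hz _ _ (Nat.mul_pos hN hq)
  rw [← back_iter hf, hp]

theorem bdd_back {h : X ≃ₜ Y} {f : X ≃ₜ X} {f' : Y ≃ₜ Y} (hf : ∀ x, h (f x) = f' (h x))
    {N : ℕ} (hN : 1 ≤ N) {φ : X → ℝ} (hφ : Continuous φ)
    (hb : BddSums (iterHomeo f' N) (fun y => birkhoffSum f φ N (h.symm y))) : BddSums f φ := by
  obtain ⟨C, hC⟩ := hb
  obtain ⟨B, hB⟩ : ∃ B, ∀ x, |φ x| ≤ B := by
    obtain ⟨B, hB⟩ := (isCompact_univ (X := X)).exists_bound_of_continuousOn hφ.continuousOn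
    exact ⟨B, fun x => hB x trivial⟩
  refine ⟨C + N * B, fun n x => ?_⟩
  have hB0 : 0 ≤ B := (abs_nonneg _).trans (hB x)
  have h1 := hC (n / N) (h x)
  rw [bsum_pow hf, h.symm_apply_apply] at h1
  have e : n = N * (n / N) + n % N := (Nat.div_add_mod n N).symm
  have h2 : |birkhoffSum f φ (n % N) (f^[N * (n / N)] x)| ≤ (n % N : ℕ) * B := by
    unfold birkhoffSum
    refine (Finset.abs_sum_le_sum_abs _ _).trans ?_
    refine (Finset.sum_le_sum fun k _ => hB _).trans ?_
    rw [Finset.sum_const, Finset.card_range, nsmul_eq_mul]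
  have h3 : ((n % N : ℕ) : ℝ) ≤ N := by exact_mod_cast (Nat.mod_lt _ (by omega)).le
  have h4 : ((n % N : ℕ) : ℝ) * B ≤ N * B := mul_le_mul_of_nonneg_right h3 hB0
  rw [e, birkhoffSum_add]
  have h5 := abs_add_le (birkhoffSum f φ (N * (n / N)) x)
    (birkhoffSum f φ (n % N) (f^[N * (n / N)] x))
  linarith

theorem walt_transfer {h : X ≃ₜ Y} {f : X ≃ₜ X} {f' : Y ≃ₜ Y} (hf : ∀ x, h (f x) = f' (h x))
    {N : ℕ} (hN : 1 ≤ N) {φ : X → ℝ} (hW : Walt f φ) :
    Walt (iterHomeo f' N) (fun y => birkhoffSum f φ N (h.symm y)) := by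
  intro ε hε
  obtain ⟨e, he, hB⟩ := hW ε hε
  exact bow_transfer hf hN he hB

/-- The Walters property from a power. -/
theorem walt_back {h : X ≃ₜ Y} {f : X ≃ₜ X} {f' : Y ≃ₜ Y} (hf : ∀ x, h (f x) = f' (h x))
    {N : ℕ} (hN : 1 ≤ N) {φ : X → ℝ} (hφ : Continuous φ)
    (hW : Walt (iterHomeo f' N) (fun y => birkhoffSum f φ N (h.symm y))) : Walt f φ := by
  intro ε hε
  obtain ⟨e, he, hB⟩ := hW (ε / 2) (half_pos hε)
  have hu : UniformContinuous φ := CompactSpace.uniformContinuous_of_continuous hφ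
  have hN0 : (0 : ℝ) < N := by exact_mod_cast hN
  obtain ⟨δ, hδ, h4⟩ := Metric.uniformContinuous_iff.mp hu (ε / (2 * N)) (by positivity)
  obtain ⟨r, hr, h5⟩ := one_uc h he
  refine ⟨min r (δ / 2), lt_min hr (half_pos hδ), fun n x y hxy => ?_⟩
  have e0 : n = N * (n / N) + n % N := (Nat.div_add_mod n N).symm
  have hle : N * (n / N) ≤ n := Nat.mul_div_le n N
  have h1 : |birkhoffSum f φ (N * (n / N)) x - birkhoffSum f φ (N * (n / N)) y| ≤ ε / 2 := by
    have h2 := hB (n / N) (h x) (h y) (fun k hk => by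
      rw [ith_iter, ith_iter, ← conj_iter hf, ← conj_iter hf]
      apply h5
      have hk' : N * k < n := by
        calc N * k < N * (k + 1) := by nlinarith
          _ ≤ N * (n / N) := Nat.mul_le_mul_left _ hk
          _ ≤ n := hle
      exact (hxy _ hk').trans (min_le_left _ _))
    rw [bsum_pow hf, bsum_pow hf, h.symm_apply_apply, h.symm_apply_apply] at h2
    exact h2
  have h2 : |birkhoffSum f φ (n % N) (f^[N * (n / N)] x) -
      birkhoffSum f φ (n % N) (f^[N * (n / N)] y)| ≤ ε / 2 := by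
    unfold birkhoffSum
    rw [← Finset.sum_sub_distrib]
    refine (Finset.abs_sum_le_sum_abs _ _).trans ?_
    refine (Finset.sum_le_sum (g := fun _ => ε / (2 * N)) fun k hk => ?_).trans ?_
    · rw [Finset.mem_range] at hk
      rw [← Function.iterate_add_apply, ← Function.iterate_add_apply]
      have h6 := hxy (k + N * (n / N)) (by omega)
      have h7 := h4 (lt_of_le_of_lt (h6.trans (min_le_right _ _)) (by linarith : δ / 2 < δ))
      rw [Real.dist_eq] at h7
      exact h7.le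
    · rw [Finset.sum_const, Finset.card_range, nsmul_eq_mul]
      have h8 : ((n % N : ℕ) : ℝ) ≤ N := by exact_mod_cast (Nat.mod_lt _ (by omega)).le
      calc ((n % N : ℕ) : ℝ) * (ε / (2 * N)) ≤ N * (ε / (2 * N)) :=
            mul_le_mul_of_nonneg_right h8 (by positivity)
        _ = ε / 2 := by field_simp
  have e1 : birkhoffSum f φ n x - birkhoffSum f φ n y =
      (birkhoffSum f φ (N * (n / N)) x - birkhoffSum f φ (N * (n / N)) y) +
      (birkhoffSum f φ (n % N) (f^[N * (n / N)] x) -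
        birkhoffSum f φ (n % N) (f^[N * (n / N)] y)) := by
    conv_lhs => rw [e0, birkhoffSum_add, birkhoffSum_add]
    ring
  rw [e1]
  have h9 := abs_add_le (birkhoffSum f φ (N * (n / N)) x - birkhoffSum f φ (N * (n / N)) y)
    (birkhoffSum f φ (n % N) (f^[N * (n / N)] x) - birkhoffSum f φ (n % N) (f^[N * (n / N)] y))
  linarith

/-- Transitivity is invariant under conjugacy. -/
theorem trans_conj {h : X ≃ₜ Y} {f : X ≃ₜ X} {f' : Y ≃ₜ Y} (hf : ∀ x, h (f x) = f' (h x)) :
    TopTransitive (f : X → X) ↔ TopTransitive (f' : Y → Y) := by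
  constructor
  · intro ht U V hU hUn hV hVn
    obtain ⟨n, _, ⟨x, hx, rfl⟩, hy⟩ := ht (h ⁻¹' U) (h ⁻¹' V)
      (hU.preimage h.continuous) (hUn.preimage h.surjective)
      (hV.preimage h.continuous) (hVn.preimage h.surjective)
    refine ⟨n, h (f^[n] x), ⟨h x, hx, ?_⟩, hy⟩
    exact (conj_iter hf n x).symm
  · intro ht U V hU hUn hV hVn
    obtain ⟨n, _, ⟨x, hx, rfl⟩, hy⟩ := ht (h.symm ⁻¹' U) (h.symm ⁻¹' V)
      (hU.preimage h.symm.continuous) (hUn.preimage h.symm.surjective)
      (hV.preimage h.symm.continuous) (hVn.preimage h.symm.surjective)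
    refine ⟨n, h.symm (f'^[n] x), ⟨h.symm x, hx, ?_⟩, hy⟩
    apply h.injective
    rw [h.apply_symm_apply]
    have := conj_iter hf n (h.symm x)
    rw [h.apply_symm_apply] at this
    exact this

end two

section main

variable {X Y E : Type*} [MetricSpace X] [CompactSpace X] [MetricSpace Y] [CompactSpace Y]
  [ConnectedSpace Y] [NormedAddCommGroup E] [NormedSpace ℝ E]

theorem bdd_of_zero {h : X ≃ₜ Y} {f : X ≃ₜ X} {f' : Y ≃ₜ Y} (hf : ∀ x, h (f x) = f' (h x))
    {N : ℕ} (hN : 1 ≤ N) (S : HypSys Y E) (hS : S.g = iterHomeo f' N) {c : ℝ} (hc : LP S.g c)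
    {φ : X → ℝ} (hφ : Continuous φ) {e V : ℝ} (he : 0 < e) (hB : Bow f φ e V) (hz : Zero f φ) :
    BddSums f φ := by
  apply bdd_back hf hN hφ
  obtain ⟨e', he', hB'⟩ := bow_transfer hf hN he hB
  have hz' := zero_transfer hf hN hz
  obtain ⟨B, hBB⟩ : ∃ B, ∀ x, |φ x| ≤ B := by
    obtain ⟨B, hB⟩ := (isCompact_univ (X := X)).exists_bound_of_continuousOn hφ.continuousOn
    exact ⟨B, fun x => hB x trivial⟩
  rw [← hS] at hB' hz' ⊢
  exact bdd_sums S hc hz' he' hB' (fun y => bsum_bound f hBB N _)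

/-- **Livsic's theorem** for a map with a hyperbolic power. -/
theorem livsic_back {h : X ≃ₜ Y} {f : X ≃ₜ X} {f' : Y ≃ₜ Y} (hf : ∀ x, h (f x) = f' (h x))
    {N : ℕ} (hN : 1 ≤ N) (S : HypSys Y E) (hS : S.g = iterHomeo f' N) {c : ℝ} (hc : LP S.g c)
    {φ : X → ℝ} (hφ : Continuous φ) (hW : Walt f φ) (hz : Zero f φ)
    (ht : TopTransitive (f : X → X)) :
    ∃ u : X → ℝ, Continuous u ∧ ∀ x, φ x = u (f x) - u x := by
  have hc' : LP (iterHomeo f' N) c := hS ▸ hc
  have ht' := (trans_iff hN hc').mp ((trans_conj hf).mp ht)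
  have htg : TopTransitive (iterHomeo f' N : Y → Y) := fun U V hU hUn hV hVn =>
    transitive_of_unique hc' ht' U V hU hUn hV hVn
  have hcb : Continuous (fun x => birkhoffSum f φ N x) := by
    unfold birkhoffSum
    exact continuous_finsetSum _ fun i _ => hφ.comp (f.continuous.iterate i)
  obtain ⟨w, hw, hwe⟩ := livsic S hc (φ := fun y => birkhoffSum f φ N (h.symm y))
    (hcb.comp h.symm.continuous) (by rw [hS]; exact zero_transfer hf hN hz)
    (by rw [hS]; exact walt_transfer hf hN hW) (by rw [hS]; exact htg)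
  set u : X → ℝ := fun x => w (h x) with hu
  have huc : Continuous u := hw.comp h.continuous
  set θ : X → ℝ := fun x => φ x - (u (f x) - u x) with hθ
  have hθc : Continuous θ := hφ.sub ((huc.comp f.continuous).sub huc)
  have hsum : ∀ x, birkhoffSum f θ N x = 0 := by
    intro x
    have h1 : birkhoffSum f θ N x = birkhoffSum f φ N x - (u (f^[N] x) - u x) := by
      rw [← bsum_coc (f := f) (u := u) (φ := fun x => u (f x) - u x) (fun _ => rfl) N x]
      unfold birkhoffSum
      rw [← Finset.sum_sub_distrib]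
    have h2 := hwe (h x)
    rw [h.symm_apply_apply, hS, show (iterHomeo f' N) (h x) = f'^[N] (h x) from rfl,
      ← conj_iter hf] at h2
    rw [h1]
    simp only [hu]
    linarith
  have hinv : ∀ x, θ (f^[N] x) = θ x := by
    intro x
    have h1 := birkhoffSum_succ f θ N x
    have h2 := birkhoffSum_succ' f θ N x
    rw [hsum] at h1
    rw [hsum (f x)] at h2
    linarith
  have hYn : Nonempty Y := inferInstance
  obtain ⟨y₀, hy₀⟩ := exists_dense_orbit (iterHomeo f' N).continuous htg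
  have hconst : ∀ y, θ (h.symm y) = θ (h.symm y₀) := by
    have h1 : (fun y => θ (h.symm y)) = fun _ => θ (h.symm y₀) := by
      apply Continuous.ext_on hy₀ (hθc.comp h.symm.continuous) continuous_const
      rintro _ ⟨n, rfl⟩
      show θ (h.symm ((iterHomeo f' N)^[n] y₀)) = θ (h.symm y₀)
      rw [back_iter hf]
      induction n with
      | zero => rfl
      | succ n ih =>
        rw [Nat.mul_succ, add_comm, Function.iterate_add_apply, hinv, ih]
    exact fun y => congrFun h1 y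
  have hN0 : (N : ℝ) ≠ 0 := by exact_mod_cast (by omega : N ≠ 0)
  have hc0 : θ (h.symm y₀) = 0 := by
    have h1 := hsum (h.symm y₀)
    have h2 : birkhoffSum f θ N (h.symm y₀) = N * θ (h.symm y₀) := by
      unfold birkhoffSum
      calc ∑ k ∈ Finset.range N, θ (f^[k] (h.symm y₀)) =
          ∑ k ∈ Finset.range N, θ (h.symm y₀) := by
            refine Finset.sum_congr rfl fun k _ => ?_
            have := hconst (h (f^[k] (h.symm y₀)))
            rwa [h.symm_apply_apply] at this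
        _ = N * θ (h.symm y₀) := by
            rw [Finset.sum_const, Finset.card_range, nsmul_eq_mul]
    rw [h1] at h2
    exact (mul_eq_zero.mp h2.symm).resolve_left hN0
  refine ⟨u, huc, fun x => ?_⟩
  have h1 := hconst (h x)
  rw [h.symm_apply_apply, hc0] at h1
  simp only [hθ] at h1
  linarith

/-- The nontransitive case. -/
theorem family_back {h : X ≃ₜ Y} {f : X ≃ₜ X} {f' : Y ≃ₜ Y} (hf : ∀ x, h (f x) = f' (h x))
    {N : ℕ} (hN : 1 ≤ N) {c : ℝ} (hc : LP (iterHomeo f' N) c)
    (ht : ¬ TopTransitive (f : X → X)) (m : ℕ) :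
    ∃ (y : Fin m → X) (U : Fin m → Set X), (∀ j, IsOpen (U j) ∧ y j ∈ U j ∧
      ∀ (p : X) (n : ℕ), 1 ≤ n → f^[n] p = p → p ∉ U j) ∧
      ∀ ψ : Fin m → X → ℝ, (∀ j x, x ∉ U j → ψ j x = 0) → (∀ j, ψ j (y j) ≠ 0) →
        ∀ (a : Fin m → ℝ) (u : X → ℝ), Continuous u →
          (∀ x, ∑ j, a j * ψ j x = u (f x) - u x) → a = 0 := by
  rw [trans_conj hf, trans_iff hN hc] at ht
  push Not at ht
  obtain ⟨Q, hQ, hQu⟩ := ht
  obtain ⟨A, R, hA, hR, hW⟩ := exists_connection hc isOpen_univ univ_nonempty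
  have H : Non f' N c A R := by
    refine ⟨hN, hc, fun B hB hBu => ?_, hA, hR⟩
    subst hBu
    exact hQu (univ_subset_iff.mp (hB.2 Q hQ (subset_univ _)))
  have hW' : (W1 (iterHomeo f' N) A R).Nonempty := by
    obtain ⟨x, ⟨-, hx1⟩, hx2⟩ := hW
    exact ⟨x, hx1, hx2⟩
  obtain ⟨y, U, hU, hfam⟩ := H.family hW' m
  refine ⟨fun j => h.symm (y j), fun j => h ⁻¹' (U j), fun j => ⟨(hU j).1.preimage h.continuous,
    ?_, fun p n hn hp => ?_⟩, fun ψ hψ hψ1 a u hu hcob => ?_⟩
  · show h (h.symm (y j)) ∈ U j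
    rw [h.apply_symm_apply]
    exact (hU j).2.1
  · apply (hU j).2.2 _ n hn
    rw [← conj_iter hf, hp]
  · apply hfam (fun j y => ψ j (h.symm y)) (fun j x hx => hψ j _ ?_) hψ1 a (fun y => u (h.symm y))
      (hu.comp h.symm.continuous) (fun y => ?_)
    · show h (h.symm x) ∉ U j
      rwa [h.apply_symm_apply]
    · rw [conj_inv hf]
      exact (hcob _).symm

end main

end Pool.Agent.V7H85.LV
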