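import Pool.Agent.Y321.PJ.Clos
import Pool.Agent.N520.T.Hol

set_option autoImplicit false

open Filter Topology Set Metric

namespace Pool.Agent.V7H85.LV

open Pool.Agent.H789R2.AN Pool.Agent.H721R2 Pool.Agent.Y321.PJ Pool.Agent.N520.T

variable {X E : Type*} [MetricSpace X] [NormedAddCommGroup E] [NormedSpace ℝ E]

/-- Closing lemma: nearly closed orbit segments are shadowed by periodic orbits. -/
theorem close_seg [CompactSpace X] (S : HypSys X E) {c : ℝ} (h : LP S.g c) :
    ∃ ε₀ > 0, ∀ ε ≤ ε₀, ∀ (q : ℕ) (x : X), 1 ≤ q → dist (S.g^[q] x) x ≤ ε →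
      ∃ p, S.g^[q] p = p ∧ ∀ i < q, dist (S.g^[i] p) (S.g^[i] x) ≤ 8 * S.K * ε := by
  obtain ⟨ε₀, hε₀, hper⟩ := per_shadow S h
  refine ⟨ε₀, hε₀, fun ε hε q x hq hx => ?_⟩
  have hε0 : 0 ≤ ε := dist_nonneg.trans hx
  refine hper ε hε q (fun i => S.g^[i] x) hq (fun i _ => ?_) ?_
  · rw [Function.iterate_succ_apply', dist_self]
    exact hε0
  · show dist (S.g (S.g^[q - 1] x)) (S.g^[0] x) ≤ ε
    rw [← Function.iterate_succ_apply' S.g (q - 1)]
    have : (q - 1).succ = q := by omega
    rw [this]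
    exact hx

/-- Zero periodic sums. -/
def Zero (g : X → X) (φ : X → ℝ) : Prop :=
  ∀ (p : X) (q : ℕ), 1 ≤ q → g^[q] p = p → birkhoffSum g φ q p = 0

theorem bow_nonneg {g : X ≃ₜ X} {φ : X → ℝ} {e V : ℝ} (hB : Bow g φ e V) (x : X) : 0 ≤ V := by
  have := hB 0 x x (fun k hk => absurd hk (Nat.not_lt_zero k))
  simpa using this

/-- Sums along nearly closed orbit segments are small. -/
theorem seg_small [CompactSpace X] (S : HypSys X E) {c : ℝ} (h : LP S.g c) {φ : X → ℝ}
    (hz : Zero S.g φ) {e V : ℝ} (he : 0 < e) (hB : Bow S.g φ e V) :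
    ∃ δ > 0, ∀ (q : ℕ) (x : X), dist (S.g^[q] x) x < δ → |birkhoffSum S.g φ q x| ≤ V := by
  obtain ⟨ε₀, hε₀, hcl⟩ := close_seg S h
  have hK := S.one_le_K
  have hK0 : 0 < S.K := by linarith
  refine ⟨min ε₀ (e / (8 * S.K)), lt_min hε₀ (by positivity), fun q x hq => ?_⟩
  rcases Nat.eq_zero_or_pos q with h0 | h0
  · subst h0
    simpa using bow_nonneg hB x
  · obtain ⟨p, hp, hpx⟩ := hcl _ (min_le_left _ _) q x h0 hq.le
    have h1 : 8 * S.K * min ε₀ (e / (8 * S.K)) ≤ e := by
      calc 8 * S.K * min ε₀ (e / (8 * S.K)) ≤ 8 * S.K * (e / (8 * S.K)) :=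
            mul_le_mul_of_nonneg_left (min_le_right _ _) (by positivity)
        _ = e := by field_simp
    have h2 := hB q p x (fun k hk => (hpx k hk).trans h1)
    rw [hz p q h0 hp, zero_sub, abs_neg] at h2
    exact h2

/-- **Bounded sums.** -/
theorem bdd_sums [CompactSpace X] (S : HypSys X E) {c : ℝ} (h : LP S.g c) {φ : X → ℝ}
    (hz : Zero S.g φ) {e V B : ℝ} (he : 0 < e) (hB : Bow S.g φ e V) (hφ : ∀ x, |φ x| ≤ B) :
    ∃ C, ∀ (n : ℕ) (x : X), |birkhoffSum S.g φ n x| ≤ C := by
  obtain ⟨δ, hδ, hseg⟩ := seg_small S h hz he hB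
  obtain ⟨t, -, htfin, hcov⟩ := (isCompact_univ (X := X)).finite_cover_balls (half_pos hδ)
  have key : ∀ (k : ℕ) (s : Finset X), s.card ≤ k → ∀ (n : ℕ) (x : X),
      (∀ i < n, ∃ a ∈ s, dist (S.g^[i] x) a < δ / 2) →
      |birkhoffSum S.g φ n x| ≤ k * (V + B) := by
    intro k
    induction k with
    | zero =>
      intro s hs n x hx
      have hs' : s = ∅ := Finset.card_eq_zero.mp (Nat.le_zero.mp hs)
      rcases Nat.eq_zero_or_pos n with h0 | h0
      · subst h0; simp
      · obtain ⟨a, ha, -⟩ := hx 0 h0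
        rw [hs'] at ha
        exact absurd ha (Finset.notMem_empty a)
    | succ k ih =>
      intro s hs n x hx
      have hV0 := bow_nonneg hB x
      have hB0 : 0 ≤ B := (abs_nonneg _).trans (hφ x)
      rcases Nat.eq_zero_or_pos n with h0 | h0
      · subst h0
        simp only [birkhoffSum_zero, abs_zero]
        positivity
      · obtain ⟨a, ha, hxa⟩ := hx 0 h0
        simp only [Function.iterate_zero, id_eq] at hxa
        classical
        let P : ℕ → Prop := fun i => dist (S.g^[i] x) a < δ / 2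
        have hP0 : P 0 := by simpa [P] using hxa
        set T := Nat.findGreatest P (n - 1) with hT
        have hPT : P T := Nat.findGreatest_spec (Nat.zero_le _) hP0
        have hTn : T ≤ n - 1 := Nat.findGreatest_le _
        have hTmax : ∀ i, T < i → i < n → ¬ P i := fun i h1 h2 =>
          Nat.findGreatest_is_greatest h1 (by omega)
        obtain ⟨m, hm⟩ : ∃ m, n = T + (1 + m) := ⟨n - T - 1, by omega⟩
        have h1 : |birkhoffSum S.g φ T x| ≤ V := by
          apply hseg
          have h2 : dist (S.g^[T] x) a < δ / 2 := hPT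
          have h3 := dist_triangle (S.g^[T] x) a x
          rw [dist_comm a x] at h3
          linarith
        have h2 : |birkhoffSum S.g φ 1 (S.g^[T] x)| ≤ B := by
          rw [birkhoffSum_one]
          exact hφ _
        have h3 : |birkhoffSum S.g φ m (S.g^[1] (S.g^[T] x))| ≤ k * (V + B) := by
          apply ih (s.erase a)
          · rw [Finset.card_erase_of_mem ha]; omega
          · intro i hi
            rw [← Function.iterate_add_apply, ← Function.iterate_add_apply]
            obtain ⟨b, hb, hxb⟩ := hx (i + 1 + T) (by omega)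
            refine ⟨b, ?_, hxb⟩
            rw [Finset.mem_erase]
            refine ⟨fun hba => ?_, hb⟩
            rw [hba] at hxb
            exact hTmax (i + 1 + T) (by omega) (by omega) hxb
        rw [hm, birkhoffSum_add, birkhoffSum_add]
        have h4 := abs_add_le (birkhoffSum S.g φ T x)
          (birkhoffSum S.g φ 1 (S.g^[T] x) + birkhoffSum S.g φ m (S.g^[1] (S.g^[T] x)))
        have h5 := abs_add_le (birkhoffSum S.g φ 1 (S.g^[T] x))
          (birkhoffSum S.g φ m (S.g^[1] (S.g^[T] x)))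
        push_cast
        linarith
  refine ⟨htfin.toFinset.card * (V + B), fun n x => key _ htfin.toFinset le_rfl n x ?_⟩
  intro i _
  obtain ⟨a, ha, hxa⟩ := mem_iUnion₂.mp (hcov (mem_univ (S.g^[i] x)))
  exact ⟨a, htfin.mem_toFinset.mpr ha, hxa⟩

end Pool.Agent.V7H85.LV
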