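import Pool.Agent.V7H85.LV.A

set_option autoImplicit false

open Filter Topology Set Metric

namespace Pool.Agent.V7H85.LV

open Pool.Agent.H789R2.AN Pool.Agent.H721R2 Pool.Agent.Y321.PJ Pool.Agent.N520.T

/-- A topologically transitive map of a compact metric space has a dense forward orbit. -/
theorem exists_dense_orbit {X : Type*} [MetricSpace X] [CompactSpace X] [Nonempty X] {g : X → X}
    (hg : Continuous g) (ht : TopTransitive g) : ∃ x, Dense (range fun n : ℕ => g^[n] x) := by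
  have hd : Dense (⋂ U ∈ TopologicalSpace.countableBasis X, ⋃ n : ℕ, (g^[n]) ⁻¹' U) := by
    apply dense_biInter_of_isOpen
    · intro U hU
      exact isOpen_iUnion fun n =>
        (TopologicalSpace.isOpen_of_mem_countableBasis hU).preimage (hg.iterate n)
    · exact TopologicalSpace.countable_countableBasis X
    · intro U hU
      rw [dense_iff_inter_open]
      intro V hV hVn
      obtain ⟨n, y, ⟨x, hx, rfl⟩, hy⟩ := ht V U hV hVn
        (TopologicalSpace.isOpen_of_mem_countableBasis hU)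
        (TopologicalSpace.nonempty_of_mem_countableBasis hU)
      exact ⟨x, hx, mem_iUnion.mpr ⟨n, hy⟩⟩
  obtain ⟨x, hx⟩ := hd.nonempty
  refine ⟨x, ?_⟩
  rw [(TopologicalSpace.isBasis_countableBasis X).dense_iff]
  intro U hU _
  obtain ⟨n, hn⟩ := mem_iUnion.mp (mem_iInter₂.mp hx U hU)
  exact ⟨g^[n] x, hn, n, rfl⟩

variable {X E : Type*} [MetricSpace X] [NormedAddCommGroup E] [NormedSpace ℝ E]

/-- The Walters property. -/
def Walt (g : X ≃ₜ X) (φ : X → ℝ) : Prop := ∀ ε > 0, ∃ e > 0, Bow g φ e ε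

theorem bsum_diff (g : X → X) (φ : X → ℝ) (n k : ℕ) (x : X) :
    birkhoffSum g φ (n + k) x - birkhoffSum g φ n x = birkhoffSum g φ k (g^[n] x) := by
  rw [birkhoffSum_add]; ring

/-- **Livsic's theorem** for transitive hyperbolic systems. -/
theorem livsic [CompactSpace X] [Nonempty X] (S : HypSys X E) {c : ℝ} (h : LP S.g c) {φ : X → ℝ}
    (hφ : Continuous φ) (hz : Zero S.g φ) (hW : Walt S.g φ) (ht : TopTransitive S.g) :
    ∃ u : X → ℝ, Continuous u ∧ ∀ x, u (S.g x) - u x = φ x := by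
  obtain ⟨x₀, hx₀⟩ := exists_dense_orbit S.g.continuous ht
  -- the estimate on the orbit
  have key : ∀ ε > 0, ∃ δ > 0, ∀ n m : ℕ, dist (S.g^[n] x₀) (S.g^[m] x₀) < δ →
      |birkhoffSum S.g φ n x₀ - birkhoffSum S.g φ m x₀| ≤ ε := by
    intro ε hε
    obtain ⟨e, he, hB⟩ := hW ε hε
    obtain ⟨δ, hδ, hseg⟩ := seg_small S h hz he hB
    refine ⟨δ, hδ, fun n m hnm => ?_⟩
    rcases le_total n m with hle | hle
    · obtain ⟨k, rfl⟩ := Nat.exists_eq_add_of_le hle
      have h1 : dist (S.g^[k] (S.g^[n] x₀)) (S.g^[n] x₀) < δ := by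
        rw [← Function.iterate_add_apply, add_comm k n, dist_comm]; exact hnm
      have h2 := hseg k _ h1
      rw [← bsum_diff, abs_sub_comm] at h2
      exact h2
    · obtain ⟨k, rfl⟩ := Nat.exists_eq_add_of_le hle
      have h1 : dist (S.g^[k] (S.g^[m] x₀)) (S.g^[m] x₀) < δ := by
        rw [← Function.iterate_add_apply, add_comm k m]; exact hnm
      have h2 := hseg k _ h1
      rw [← bsum_diff] at h2
      exact h2
  have hwd : ∀ n m : ℕ, S.g^[n] x₀ = S.g^[m] x₀ →
      birkhoffSum S.g φ n x₀ = birkhoffSum S.g φ m x₀ := by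
    intro n m hnm
    by_contra hne
    have hpos : 0 < |birkhoffSum S.g φ n x₀ - birkhoffSum S.g φ m x₀| :=
      abs_pos.mpr (sub_ne_zero.mpr hne)
    obtain ⟨δ, hδ, h1⟩ := key _ (half_pos hpos)
    have h2 := h1 n m (by rw [hnm, dist_self]; exact hδ)
    linarith
  set D : Set X := range fun n : ℕ => S.g^[n] x₀ with hD
  have hch : ∀ y : D, ∃ n : ℕ, S.g^[n] x₀ = y := fun y => y.2
  choose ν hν using hch
  let v : D → ℝ := fun y => birkhoffSum S.g φ (ν y) x₀
  have hv : UniformContinuous v := by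
    rw [Metric.uniformContinuous_iff]
    intro ε hε
    obtain ⟨δ, hδ, h1⟩ := key (ε / 2) (half_pos hε)
    refine ⟨δ, hδ, fun {a b} hab => ?_⟩
    have h2 := h1 (ν a) (ν b) (by rw [hν, hν]; exact hab)
    rw [Real.dist_eq]
    exact lt_of_le_of_lt h2 (by linarith)
  have hu := (hx₀.uniformContinuous_extend hv).continuous
  refine ⟨hx₀.extend v, hu, ?_⟩
  have hval : ∀ n : ℕ, hx₀.extend v (S.g^[n] x₀) = birkhoffSum S.g φ n x₀ := by
    intro n
    have h1 := hx₀.extend_of_ind hv ⟨S.g^[n] x₀, n, rfl⟩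
    rw [h1]
    exact hwd _ _ (hν _)
  have hfun : (fun x => hx₀.extend v (S.g x) - hx₀.extend v x) = φ := by
    apply Continuous.ext_on hx₀ ((hu.comp S.g.continuous).sub hu) hφ
    rintro _ ⟨n, rfl⟩
    show hx₀.extend v (S.g (S.g^[n] x₀)) - hx₀.extend v (S.g^[n] x₀) = φ (S.g^[n] x₀)
    rw [← Function.iterate_succ_apply' S.g n, hval, hval, birkhoffSum_succ]
    ring
  intro x
  exact congrFun hfun x

end Pool.Agent.V7H85.LV
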