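import Pool.Agent.V7H85.LV.B
import Pool.Agent.N520.T.Man

set_option autoImplicit false
set_option linter.unusedSectionVars false

open Filter Topology Set Metric

namespace Pool.Agent.V7H85.LV

open Pool.Agent.H789R2.AN Pool.Agent.H721R2 Pool.Agent.Y321.PJ Pool.Agent.N520.T Pool.Agent.Y330.G

variable {X : Type*} [MetricSpace X]

/-- Transitivity inside a minimal attractor. -/
theorem trans_in [CompactSpace X] {g : X ≃ₜ X} {c : ℝ} (h : LP g c) {A : Set X}
    (hA : MinAtt g A) {x v : X} (hx : x ∈ A) (hv : v ∈ A) {ε : ℝ} (hε : 0 < ε) :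
    ∃ n : ℕ, ∃ z ∈ A, dist z x < ε ∧ dist (g^[n] z) v < ε := by
  set ε' := min (ε / 3) c with hε'
  have hε'0 : 0 < ε' := lt_min (by linarith) h.c_pos
  have hε'1 : ε' ≤ ε / 3 := min_le_left _ _
  obtain ⟨δ, hδ, hlp⟩ := h.lp ε' hε'0
  obtain ⟨n, -, z, hz1, hz2⟩ := minAtt_trans h hA hx hv (lt_min hδ (by linarith : 0 < ε / 3)) 0
  obtain ⟨w, hw1, hw2⟩ := hlp z x (lt_of_lt_of_le hz1 (min_le_left _ _))
  refine ⟨n, w, hA.1.sat x hx w (WS.of_SR (h.cU _ _ (hw2.mono (min_le_right _ _)))), ?_, ?_⟩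
  · have := hw2 0
    simp only [Function.iterate_zero, id_eq] at this
    rw [dist_comm]
    linarith
  · have h1 := hw1 n
    have h2 : dist (g^[n] z) v < ε / 3 := lt_of_lt_of_le hz2 (min_le_right _ _)
    have := dist_triangle (g^[n] w) (g^[n] z) v
    rw [dist_comm (g^[n] w) (g^[n] z)] at this
    linarith

/-- Continuous functions invariant on a minimal attractor are constant on it. -/
theorem const_on [CompactSpace X] {g : X ≃ₜ X} {c : ℝ} (h : LP g c) {A : Set X}
    (hA : MinAtt g A) {U : X → ℝ} (hU : Continuous U) (hinv : ∀ x ∈ A, U (g x) = U x)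
    {x v : X} (hx : x ∈ A) (hv : v ∈ A) : U x = U v := by
  by_contra hne
  have hpos : 0 < |U x - U v| := abs_pos.mpr (sub_ne_zero.mpr hne)
  obtain ⟨δ₁, hδ₁, h1⟩ := Metric.continuous_iff.mp hU x _ (half_pos hpos)
  obtain ⟨δ₂, hδ₂, h2⟩ := Metric.continuous_iff.mp hU v _ (half_pos hpos)
  obtain ⟨n, z, hz, hz1, hz2⟩ := trans_in h hA hx hv (lt_min hδ₁ hδ₂)
  have h3 := h1 z (lt_of_lt_of_le hz1 (min_le_left _ _))
  have h4 := h2 (g^[n] z) (lt_of_lt_of_le hz2 (min_le_right _ _))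
  have h5 : U (g^[n] z) = U z := by
    clear hz2 h4
    induction n with
    | zero => rfl
    | succ n ih =>
      rw [Function.iterate_succ_apply', hinv _ ((inv_iter hA.1.inv n z).mpr hz), ih]
  rw [h5] at h4
  rw [Real.dist_eq] at h3 h4
  have h6 := abs_sub_le (U x) (U z) (U v)
  rw [abs_sub_comm (U x) (U z)] at h6
  linarith

/-- Values of continuous functions along the points of a basin. -/
theorem lim_on [CompactSpace X] {g : X ≃ₜ X} {A : Set X} (hA : IsAtt g A)
    {U : X → ℝ} (hU : Continuous U) {b : ℝ} (hb : ∀ x ∈ A, U x = b) {x : X} (hx : x ∈ Bas g A) :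
    Tendsto (fun k : ℕ => U (g^[k] x)) atTop (𝓝 b) := by
  obtain ⟨z, hz, hxz⟩ := hx
  have hu : UniformContinuous U := CompactSpace.uniformContinuous_of_continuous hU
  rw [Metric.uniformContinuous_iff] at hu
  rw [Metric.tendsto_atTop]
  intro ε hε
  obtain ⟨δ, hδ, h1⟩ := hu ε hε
  obtain ⟨m, hm⟩ := hxz.eventually_lt hδ
  refine ⟨m, fun n hn => ?_⟩
  have h2 := h1 (hm n hn)
  rwa [hb _ ((inv_iter hA.inv n z).mpr hz)] at h2

/-- Positive distance and basins. -/
theorem not_bas {g : X ≃ₜ X} [CompactSpace X] {A R : Set X} (hA : IsAtt g A)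
    (hR : IsAtt g.symm R) (hd : ∀ a ∈ A, a ∉ R) : ∀ z ∈ A, z ∉ Bas g.symm R := by
  rintro z hz ⟨r, hr, hzr⟩
  have hdis : Disjoint A R := Set.disjoint_left.mpr hd
  obtain ⟨ρ, hρ, h1⟩ := exists_pos_forall_lt_edist hA.closed.isCompact hR.closed hdis
  obtain ⟨m, hm⟩ := hzr.eventually_lt (ε := ρ) (by exact_mod_cast hρ)
  have h4 := h1 _ ((inv_iter (inv_symm hA.inv) m z).mpr hz) _ ((inv_iter hR.inv m r).mpr hr)
  rw [edist_dist, ← ENNReal.ofReal_coe_nnreal,
    ENNReal.ofReal_lt_ofReal_iff_of_nonneg ρ.coe_nonneg] at h4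
  exact absurd (hm m le_rfl) (not_lt.mpr h4.le)

/-- The standing hypotheses for the nontransitive case. -/
structure Non (F : X ≃ₜ X) (N : ℕ) (c : ℝ) (A R : Set X) : Prop where
  N_pos : 1 ≤ N
  lp : LP (iterHomeo F N) c
  nt : ∀ B, MinAtt (iterHomeo F N) B → B ≠ univ
  A_min : MinAtt (iterHomeo F N) A
  R_min : MinAtt (iterHomeo F N).symm R

/-- The connecting set. -/
def W1 (g : X ≃ₜ X) (A R : Set X) : Set X := Bas g A ∩ Bas g.symm R

section non

variable [CompactSpace X] [ConnectedSpace X] {F : X ≃ₜ X} {N : ℕ} {c : ℝ} {A R : Set X}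

theorem Non.disj' (H : Non F N c A R) {B Q : Set X} (hB : MinAtt (iterHomeo F N) B)
    (hQ : MinAtt (iterHomeo F N).symm Q) {a : X} (ha : a ∈ B) : a ∉ Q :=
  disj H.lp hB hQ (H.nt B hB) ha

theorem Non.att_not_bas (H : Non F N c A R) {B Q : Set X} (hB : MinAtt (iterHomeo F N) B)
    (hQ : MinAtt (iterHomeo F N).symm Q) {z : X} (hz : z ∈ B) :
    z ∉ Bas (iterHomeo F N).symm Q :=
  not_bas hB.1 hQ.1 (fun _ ha => H.disj' hB hQ ha) z hz

theorem Non.rep_not_bas (H : Non F N c A R) {B Q : Set X} (hB : MinAtt (iterHomeo F N) B)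
    (hQ : MinAtt (iterHomeo F N).symm Q) {z : X} (hz : z ∈ Q) : z ∉ Bas (iterHomeo F N) B :=
  not_bas (g := (iterHomeo F N).symm) hQ.1 (R := B) hB.1
    (fun _ ha hb => H.disj' hB hQ hb ha) z hz

theorem comm1 (F : X ≃ₜ X) (N i : ℕ) (x : X) :
    iterHomeo F i (iterHomeo F N x) = iterHomeo F N (iterHomeo F i x) := by
  show F^[i] (F^[N] x) = F^[N] (F^[i] x)
  rw [← Function.iterate_add_apply, ← Function.iterate_add_apply, add_comm]

theorem comm2 (F : X ≃ₜ X) (N i : ℕ) (x : X) :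
    iterHomeo F i ((iterHomeo F N).symm x) = (iterHomeo F N).symm (iterHomeo F i x) :=
  comm_symm_right (comm1 F N i) x

/-- Iterates of points of minimal attractors are not backward asymptotic to minimal repellers. -/
theorem Non.iter_att (H : Non F N c A R) {B Q : Set X} (hB : MinAtt (iterHomeo F N) B)
    (hQ : MinAtt (iterHomeo F N).symm Q) {z : X} (hz : z ∈ B) (i : ℕ) :
    F^[i] z ∉ Bas (iterHomeo F N).symm Q := by
  have h1 := hB.preimage (φ := (iterHomeo F i).symm) (comm_symm_left (comm1 F N i))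
  apply H.att_not_bas h1 hQ
  show (iterHomeo F i).symm (iterHomeo F i z) ∈ B
  rw [Homeomorph.symm_apply_apply]
  exact hz

theorem Non.iter_rep (H : Non F N c A R) {B Q : Set X} (hB : MinAtt (iterHomeo F N) B)
    (hQ : MinAtt (iterHomeo F N).symm Q) {z : X} (hz : z ∈ Q) (i : ℕ) :
    F^[i] z ∉ Bas (iterHomeo F N) B := by
  have h1 := hQ.preimage (φ := (iterHomeo F i).symm) (comm_symm_left (comm2 F N i))
  apply H.rep_not_bas hB h1
  show (iterHomeo F i).symm (iterHomeo F i z) ∈ Q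
  rw [Homeomorph.symm_apply_apply]
  exact hz

theorem ws_back (hN : 1 ≤ N) {x y : X} (h : WS (iterHomeo F N) x y) : WS F x y := by
  unfold WS
  rw [Metric.tendsto_atTop]
  intro ε hε
  obtain ⟨r, hr, h1⟩ := all_times (h := Homeomorph.refl X) (f := F) (f' := F) (fun _ => rfl) hN
    (half_pos hε)
  obtain ⟨m, hm⟩ := h.eventually_lt hr
  refine ⟨N * m, fun n hn => ?_⟩
  have h2 := h1 x y n (hm _ ((Nat.le_div_iff_mul_le (by omega)).mpr (by rwa [mul_comm]))).le
  rw [Real.dist_eq, sub_zero, abs_of_nonneg dist_nonneg]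
  have h3 : dist (F^[n] x) (F^[n] y) ≤ ε / 2 := h2
  linarith

/-- Forward orbits of the points of a basin stay away from points outside the attractors. -/
theorem away_aux (hN : 1 ≤ N) (hlp : LP (iterHomeo F N) c) {B : Set X}
    (hB : MinAtt (iterHomeo F N) B) {y y' : X} (hy : y ∈ Bas (iterHomeo F N) B)
    (hy' : ∀ B', MinAtt (iterHomeo F N) B' → y' ∉ B') :
    ∃ ρ > 0, ∃ K : ℕ, ∀ n ≥ K, ρ ≤ dist (F^[n] y) y' := by
  obtain ⟨hT, hTF⟩ := tot_att (g := iterHomeo F N) (φ := F) hlp (fun x => comm1 F N 1 x)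
  have hy'T : y' ∉ Tot (iterHomeo F N) := by
    rintro ⟨B', hB', hy'B⟩
    exact hy' B' hB' hy'B
  have hnh : (Tot (iterHomeo F N))ᶜ ∈ 𝓝 y' := hT.closed.isOpen_compl.mem_nhds hy'T
  obtain ⟨ρ, hρ, hball⟩ := Metric.mem_nhds_iff.mp hnh
  obtain ⟨z, hz, hyz⟩ := hy
  have hyz' := ws_back hN hyz
  obtain ⟨K, hK⟩ := hyz'.eventually_lt (half_pos hρ)
  refine ⟨ρ / 2, half_pos hρ, K, fun n hn => ?_⟩
  by_contra hlt
  push Not at hlt
  have h1 : dist (F^[n] z) y' < ρ := by
    have := dist_triangle (F^[n] z) (F^[n] y) y'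
    have h2 := hK n hn
    rw [dist_comm] at h2
    linarith
  have h2 : F^[n] z ∈ Tot (iterHomeo F N) := (inv_iter hTF n z).mpr ⟨B, hB, hz⟩
  exact hball h1 h2

theorem iterHomeo_symm (F : X ≃ₜ X) (N : ℕ) : (iterHomeo F N).symm = iterHomeo F.symm N := rfl

/-- Orbits of points of the connecting set do not accumulate in the connecting set. -/
theorem Non.away (H : Non F N c A R) {y y' : X} (hy : y ∈ W1 (iterHomeo F N) A R)
    (hy' : y' ∈ W1 (iterHomeo F N) A R) :
    ∃ ρ > 0, ∃ K : ℕ, ∀ n ≥ K, ρ ≤ dist (F^[n] y) y' ∧ ρ ≤ dist (F.symm^[n] y) y' := by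
  obtain ⟨ρ₁, hρ₁, K₁, h1⟩ := away_aux H.N_pos H.lp H.A_min hy.1
    (fun B' hB' hyB => H.att_not_bas hB' H.R_min hyB hy'.2)
  obtain ⟨ρ₂, hρ₂, K₂, h2⟩ := away_aux (F := F.symm) H.N_pos H.lp.symm H.R_min hy.2
    (fun B' hB' hyB => H.rep_not_bas H.A_min hB' hyB hy'.1)
  refine ⟨min ρ₁ ρ₂, lt_min hρ₁ hρ₂, max K₁ K₂, fun n hn => ⟨?_, ?_⟩⟩
  · exact (min_le_left _ _).trans (h1 n ((le_max_left _ _).trans hn))
  · exact (min_le_right _ _).trans (h2 n ((le_max_right _ _).trans hn))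

/-- There are no periodic points in the connecting set. -/
theorem Non.not_per (H : Non F N c A R) {p : X} (hp : p ∈ W1 (iterHomeo F N) A R) {n : ℕ}
    (hn : 1 ≤ n) : F^[n] p ≠ p := by
  intro h
  obtain ⟨ρ, hρ, K, h1⟩ := H.away hp hp
  have h2 : F^[n * K] p = p := by
    rw [Function.iterate_mul]
    exact Function.iterate_fixed h K
  have h3 := (h1 (n * K) (by nlinarith)).1
  rw [h2, dist_self] at h3
  linarith

theorem bsum_cob {F : X ≃ₜ X} {u φ : X → ℝ} (h : ∀ x, u (F x) - u x = φ x) (n : ℕ) (y : X) :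
    birkhoffSum F φ n y = u (F^[n] y) - u y := by
  induction n with
  | zero => simp
  | succ n ih =>
    rw [birkhoffSum_succ, ih, Function.iterate_succ_apply', ← h]
    ring

theorem bsum_zero' {F : X ≃ₜ X} {φ : X → ℝ} {n : ℕ} {y : X} (h : ∀ i < n, φ (F^[i] y) = 0) :
    birkhoffSum F φ n y = 0 :=
  Finset.sum_eq_zero fun i hi => h i (Finset.mem_range.mp hi)

/-- A sum over a whole orbit with one nonzero term. -/
theorem bsum_one' {F : X ≃ₜ X} {φ : X → ℝ} {y : X} (h1 : ∀ n, 1 ≤ n → φ (F^[n] y) = 0)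
    (h2 : ∀ n, 1 ≤ n → φ (F.symm^[n] y) = 0) {m k : ℕ} (hm : m < k) :
    birkhoffSum F φ k (F.symm^[m] y) = φ y := by
  unfold birkhoffSum
  rw [Finset.sum_eq_single m]
  · rw [iterR]
  · intro i _ hi
    rcases lt_or_gt_of_ne hi with h3 | h3
    · have : F^[i] (F.symm^[m] y) = F.symm^[m - i] y := by
        have e : F.symm^[m] y = F.symm^[i] (F.symm^[m - i] y) := by
          rw [← Function.iterate_add_apply]; congr 1; omega
        rw [e, iterR]
      rw [this]
      exact h2 _ (by omega)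
    · have : F^[i] (F.symm^[m] y) = F^[i - m] y := by
        have e : F^[i] (F.symm^[m] y) = F^[i - m] (F^[m] (F.symm^[m] y)) := by
          rw [← Function.iterate_add_apply]; congr 1; omega
        rw [e, iterR]
      rw [this]
      exact h1 _ (by omega)
  · intro h3
    exact absurd (Finset.mem_range.mpr hm) h3

/-- **The obstruction.** A continuous coboundary which vanishes outside the connecting set and on
one orbit of it, vanishes at the points at which it is the only nonzero term of its orbit. -/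
theorem Non.obstruction (H : Non F N c A R) {u φ : X → ℝ} (hu : Continuous u)
    (hcob : ∀ x, u (F x) - u x = φ x) (hsupp : ∀ x, x ∉ W1 (iterHomeo F N) A R → φ x = 0)
    {y₀ y : X} (hy₀ : y₀ ∈ W1 (iterHomeo F N) A R) (hy : y ∈ W1 (iterHomeo F N) A R)
    (h0 : φ y₀ = 0) (h01 : ∀ n, 1 ≤ n → φ (F^[n] y₀) = 0) (h02 : ∀ n, 1 ≤ n → φ (F.symm^[n] y₀) = 0)
    (h1 : ∀ n, 1 ≤ n → φ (F^[n] y) = 0) (h2 : ∀ n, 1 ≤ n → φ (F.symm^[n] y) = 0) : φ y = 0 := by
  set g := iterHomeo F N with hg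
  have hgF : ∀ x, g x = F^[N] x := fun x => rfl
  have hA : ∀ x ∈ A, u (g x) = u x := by
    intro x hx
    have h3 := bsum_cob hcob N x
    rw [bsum_zero' (fun i _ => hsupp _ (fun hw => H.iter_att H.A_min H.R_min hx i hw.2))] at h3
    rw [hgF]
    linarith
  have hR' : ∀ x ∈ R, u (g x) = u x := by
    intro x hx
    have h3 := bsum_cob hcob N x
    rw [bsum_zero' (fun i _ => hsupp _ (fun hw => H.iter_rep H.A_min H.R_min hx i hw.1))] at h3
    rw [hgF]
    linarith
  have hR : ∀ x ∈ R, u (g.symm x) = u x := by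
    intro x hx
    have h3 := hR' (g.symm x) ((H.R_min.1.inv x).mpr hx)
    rw [g.apply_symm_apply] at h3
    exact h3.symm
  obtain ⟨a, ha⟩ := H.A_min.1.nonempty
  obtain ⟨r, hr⟩ := H.R_min.1.nonempty
  have hcA : ∀ x ∈ A, u x = u a := fun x hx => const_on H.lp H.A_min hu hA hx ha
  have hcR : ∀ x ∈ R, u x = u r := fun x hx =>
    const_on (g := g.symm) H.lp.symm H.R_min hu hR hx hr
  have lim : ∀ w ∈ W1 g A R, Tendsto (fun k : ℕ => birkhoffSum F φ (N * k + N * k)
      (F.symm^[N * k] w)) atTop (𝓝 (u a - u r)) := by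
    intro w hw
    have t1 := lim_on H.A_min.1 hu hcA hw.1
    have t2 := lim_on (g := g.symm) H.R_min.1 hu hcR hw.2
    refine (t1.sub t2).congr fun k => ?_
    have e1 : g^[k] w = F^[N * k] w := ith_iter F N k w
    have e2 : g.symm^[k] w = F.symm^[N * k] w := ith_iter F.symm N k w
    rw [bsum_cob hcob, e1, e2, Function.iterate_add_apply, iterR]
  have l0 : u a - u r = 0 := by
    have t := lim y₀ hy₀
    have t' : Tendsto (fun k : ℕ => birkhoffSum F φ (N * k + N * k) (F.symm^[N * k] y₀)) atTop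
        (𝓝 0) := by
      refine tendsto_const_nhds.congr' ?_
      filter_upwards [eventually_ge_atTop 1] with k hk
      have := H.N_pos
      rw [bsum_one' h01 h02 (by nlinarith), h0]
    exact tendsto_nhds_unique t t'
  have t := lim y hy
  have t' : Tendsto (fun k : ℕ => birkhoffSum F φ (N * k + N * k) (F.symm^[N * k] y)) atTop
      (𝓝 (φ y)) := by
    refine tendsto_const_nhds.congr' ?_
    filter_upwards [eventually_ge_atTop 1] with k hk
    have := H.N_pos
    rw [bsum_one' h1 h2 (by nlinarith)]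
  rw [← l0]
  exact tendsto_nhds_unique t' t

end non

end Pool.Agent.V7H85.LV
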