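import Pool.Agent.V7H85.LV.C

set_option autoImplicit false
set_option linter.unusedSectionVars false

open Filter Topology Set Metric

namespace Pool.Agent.V7H85.LV

open Pool.Agent.H789R2.AN Pool.Agent.H721R2 Pool.Agent.Y321.PJ Pool.Agent.N520.T Pool.Agent.Y330.G

variable {X : Type*} [MetricSpace X] [CompactSpace X] [ConnectedSpace X] {F : X ≃ₜ X} {N : ℕ}
  {c : ℝ} {A R : Set X}

theorem Non.isOpen_W1 (H : Non F N c A R) : IsOpen (W1 (iterHomeo F N) A R) :=
  (isOpen_bas H.lp H.A_min.1).inter (isOpen_bas (g := (iterHomeo F N).symm) H.lp.symm H.R_min.1)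

theorem back_eq {n : ℕ} {v w : X} (h : F^[n] v = w) : v = F.symm^[n] w := by
  rw [← h, iterL]

/-- Finitely many orbits do not exhaust the connecting set. -/
theorem Non.new_point (H : Non F N c A R) (hW : (W1 (iterHomeo F N) A R).Nonempty) {k : ℕ}
    (y : Fin k → X) (hy : ∀ j, y j ∈ W1 (iterHomeo F N) A R) :
    ∃ w ∈ W1 (iterHomeo F N) A R, ∀ j n, F^[n] (y j) ≠ w ∧ F^[n] w ≠ y j := by
  by_contra hcon
  push Not at hcon
  obtain ⟨w₀, hw₀⟩ := hW
  choose ρ hρ K hK using fun j => H.away (hy j) hw₀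
  set V : Set X := W1 (iterHomeo F N) A R ∩ ⋂ j, ball w₀ (ρ j) with hV
  have hVo : IsOpen V := H.isOpen_W1.inter (isOpen_iInter_of_finite fun j => isOpen_ball)
  have hw₀V : w₀ ∈ V := ⟨hw₀, mem_iInter.mpr fun j => mem_ball_self (hρ j)⟩
  set B : Set X := ⋃ j, ⋃ n ∈ Finset.range (K j), {F^[n] (y j), F.symm^[n] (y j)} with hB
  have hBf : B.Finite := by
    apply Set.finite_iUnion
    intro j
    apply Set.Finite.biUnion (Finset.finite_toSet _)
    intro n _
    exact (Set.finite_singleton _).insert _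
  have hVB : V ⊆ B := by
    intro v hv
    obtain ⟨j, n, hjn⟩ := hcon v hv.1
    have hvb : dist v w₀ < ρ j := mem_iInter.mp hv.2 j
    rw [hB, mem_iUnion]
    refine ⟨j, ?_⟩
    rw [mem_iUnion₂]
    by_cases h1 : F^[n] (y j) = v
    · refine ⟨n, ?_, Or.inl h1.symm⟩
      rw [Finset.mem_range]
      by_contra hn
      have := (hK j n (by omega)).1
      rw [h1] at this
      linarith
    · have h2 := back_eq (hjn h1)
      refine ⟨n, ?_, Or.inr h2⟩
      rw [Finset.mem_range]
      by_contra hn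
      have := (hK j n (by omega)).2
      rw [← h2] at this
      linarith
  have hVf : V.Finite := hBf.subset hVB
  have hopen : IsOpen ({w₀} : Set X) := by
    have h1 : IsClosed (V \ {w₀}) := (hVf.subset sdiff_subset).isClosed
    have h2 : ({w₀} : Set X) = V ∩ (V \ {w₀})ᶜ := by
      ext x
      constructor
      · intro hx
        rw [mem_singleton_iff] at hx
        rw [hx]
        exact ⟨hw₀V, fun h => h.2 rfl⟩
      · rintro ⟨hx1, hx2⟩
        by_contra hx3
        exact hx2 ⟨hx1, hx3⟩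
    rw [h2]
    exact hVo.inter h1.isOpen_compl
  have huniv : ({w₀} : Set X) = univ :=
    IsClopen.eq_univ ⟨isClosed_singleton, hopen⟩ (singleton_nonempty w₀)
  apply H.nt A H.A_min
  obtain ⟨a, ha⟩ := H.A_min.1.nonempty
  apply eq_univ_of_forall
  intro x
  have h1 : x ∈ ({w₀} : Set X) := huniv ▸ mem_univ x
  have h2 : a ∈ ({w₀} : Set X) := huniv ▸ mem_univ a
  rw [mem_singleton_iff] at h1 h2
  rw [h1, ← h2]
  exact ha

/-- Arbitrarily many different orbits in the connecting set. -/
theorem Non.points (H : Non F N c A R) (hW : (W1 (iterHomeo F N) A R).Nonempty) (k : ℕ) :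
    ∃ y : Fin k → X, (∀ j, y j ∈ W1 (iterHomeo F N) A R) ∧
      ∀ i j, i ≠ j → ∀ n : ℕ, F^[n] (y i) ≠ y j := by
  induction k with
  | zero => exact ⟨fun j => j.elim0, fun j => j.elim0, fun i => i.elim0⟩
  | succ k ih =>
    obtain ⟨y, hy, hd⟩ := ih
    obtain ⟨w, hw, hwd⟩ := H.new_point hW y hy
    refine ⟨Fin.cons w y, fun j => ?_, fun i j => ?_⟩
    · refine Fin.cases ?_ (fun j => ?_) j
      · exact hw
      · exact hy j
    · refine Fin.cases ?_ (fun i => ?_) i
      · refine Fin.cases ?_ (fun j => ?_) j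
        · intro h; exact absurd rfl h
        · intro _ n
          exact (hwd j n).2
      · refine Fin.cases ?_ (fun j => ?_) j
        · intro _ n
          exact (hwd i n).1
        · intro hij n
          exact hd i j (fun h => hij (by rw [h])) n

/-- Neighbourhoods which meet finitely many given orbits in one point only. -/
theorem Non.nhds (H : Non F N c A R) {k : ℕ} {y : Fin k → X}
    (hy : ∀ j, y j ∈ W1 (iterHomeo F N) A R)
    (hd : ∀ i j, i ≠ j → ∀ n : ℕ, F^[n] (y i) ≠ y j) (j : Fin k) :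
    ∃ U : Set X, IsOpen U ∧ y j ∈ U ∧ U ⊆ W1 (iterHomeo F N) A R ∧
      ∀ i n, (F^[n] (y i) ∈ U → i = j ∧ n = 0) ∧ (F.symm^[n] (y i) ∈ U → i = j ∧ n = 0) := by
  choose ρ hρ K hK using fun i => H.away (hy i) (hy j)
  set B : Set X := ⋃ i, ⋃ n ∈ Finset.range (K i), {F^[n] (y i), F.symm^[n] (y i)} with hB
  have hBf : B.Finite := by
    apply Set.finite_iUnion
    intro j
    apply Set.Finite.biUnion (Finset.finite_toSet _)
    intro n _
    exact (Set.finite_singleton _).insert _
  have hcl : IsClosed (B \ {y j}) := (hBf.subset sdiff_subset).isClosed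
  have hnp : ∀ i n, F^[n] (y i) = y j → i = j ∧ n = 0 := by
    intro i n h
    by_cases hij : i = j
    · refine ⟨hij, ?_⟩
      by_contra hn
      rw [hij] at h
      exact H.not_per (hy j) (by omega) h
    · exact absurd h (hd i j hij n)
  have hnp' : ∀ i n, F.symm^[n] (y i) = y j → i = j ∧ n = 0 := by
    intro i n h
    have h1 : F^[n] (y j) = y i := by rw [← h, iterR]
    obtain ⟨h2, h3⟩ : j = i ∧ n = 0 := by
      by_cases hij : j = i
      · refine ⟨hij, ?_⟩
        by_contra hn
        rw [hij] at h1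
        exact H.not_per (hy i) (by omega) h1
      · exact absurd h1 (hd j i hij n)
    exact ⟨h2.symm, h3⟩
  refine ⟨(W1 (iterHomeo F N) A R ∩ ⋂ i, ball (y j) (ρ i)) ∩ (B \ {y j})ᶜ,
    (H.isOpen_W1.inter (isOpen_iInter_of_finite fun i => isOpen_ball)).inter hcl.isOpen_compl,
    ⟨⟨hy j, mem_iInter.mpr fun i => mem_ball_self (hρ i)⟩, fun h => h.2 rfl⟩,
    fun x hx => hx.1.1, fun i n => ⟨fun h => ?_, fun h => ?_⟩⟩
  · have h1 : dist (F^[n] (y i)) (y j) < ρ i := mem_iInter.mp h.1.2 i
    have hn : n < K i := by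
      by_contra hn
      have := (hK i n (by omega)).1
      linarith
    apply hnp i n
    by_contra hne
    exact h.2 ⟨mem_iUnion.mpr ⟨i, mem_iUnion₂.mpr ⟨n, Finset.mem_range.mpr hn, Or.inl rfl⟩⟩, hne⟩
  · have h1 : dist (F.symm^[n] (y i)) (y j) < ρ i := mem_iInter.mp h.1.2 i
    have hn : n < K i := by
      by_contra hn
      have := (hK i n (by omega)).2
      linarith
    apply hnp' i n
    by_contra hne
    exact h.2 ⟨mem_iUnion.mpr ⟨i, mem_iUnion₂.mpr ⟨n, Finset.mem_range.mpr hn, Or.inr rfl⟩⟩, hne⟩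

/-- **Independent functions modulo coboundaries.** There are `m` open sets in the connecting set
with marked points such that functions supported in them are independent modulo continuous
coboundaries, if they do not vanish at the marked points. -/
theorem Non.family (H : Non F N c A R) (hW : (W1 (iterHomeo F N) A R).Nonempty) (m : ℕ) :
    ∃ (y : Fin m → X) (U : Fin m → Set X), (∀ j, IsOpen (U j) ∧ y j ∈ U j ∧
      ∀ (p : X) (n : ℕ), 1 ≤ n → F^[n] p = p → p ∉ U j) ∧
      ∀ ψ : Fin m → X → ℝ, (∀ j x, x ∉ U j → ψ j x = 0) → (∀ j, ψ j (y j) ≠ 0) →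
        ∀ (a : Fin m → ℝ) (u : X → ℝ), Continuous u →
          (∀ x, u (F x) - u x = ∑ j, a j * ψ j x) → a = 0 := by
  obtain ⟨y, hy, hd⟩ := H.points hW (m + 1)
  choose U hUo hUy hUW hU using H.nhds hy hd
  refine ⟨fun j => y j.succ, fun j => U j.succ, fun j => ⟨hUo _, hUy _, fun p n hn hp hpU =>
    H.not_per (hUW _ hpU) hn hp⟩, ?_⟩
  intro ψ hψ hψ1 a u hu hcob
  funext j
  have hzero : ∀ x, (∀ j : Fin m, x ∉ U j.succ) → ∑ j, a j * ψ j x = 0 := by
    intro x hx
    apply Finset.sum_eq_zero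
    intro j _
    rw [hψ j x (hx j), mul_zero]
  have h := H.obstruction hu hcob (fun x hx => hzero x fun j hxj => hx (hUW _ hxj))
    (hy 0) (hy j.succ)
    (hzero _ fun i hi => by
      have := (hU i.succ 0 0).1 hi
      exact absurd this.1.symm (Fin.succ_ne_zero i))
    (fun n _ => hzero _ fun i hi => by
      have := (hU i.succ 0 n).1 hi
      exact absurd this.1.symm (Fin.succ_ne_zero i))
    (fun n _ => hzero _ fun i hi => by
      have := (hU i.succ 0 n).2 hi
      exact absurd this.1.symm (Fin.succ_ne_zero i))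
    (fun n hn => hzero _ fun i hi => by
      have := (hU i.succ j.succ n).1 hi
      omega)
    (fun n hn => hzero _ fun i hi => by
      have := (hU i.succ j.succ n).2 hi
      omega)

  rw [Finset.sum_eq_single j] at h
  · rcases mul_eq_zero.mp h with h1 | h1
    · exact h1
    · exact absurd h1 (hψ1 j)
  · intro i _ hij
    rw [hψ i _ ?_, mul_zero]
    intro hi
    have := (hU i.succ j.succ 0).1 hi
    exact hij (Fin.succ_injective _ this.1.symm)
  · intro hj
    exact absurd (Finset.mem_univ j) hj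

end Pool.Agent.V7H85.LV
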