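import Pool.Agent.V7H85.LV.B
import Pool.Agent.Y321.PJ.Jac

set_option autoImplicit false
set_option linter.unusedSectionVars false

open scoped Manifold ContDiff NNReal
open Filter Topology Set Metric

namespace Pool.Agent.V7H85.LV

open Pool.Agent.H789R2.AN Pool.Agent.H721R2 Pool.Agent.Y321.PJ Pool.Agent.N520.T

section lip

variable {E : Type*} [NormedAddCommGroup E] [NormedSpace ℝ E] [FiniteDimensional ℝ E]
  {M : Type*} [MetricSpace M] [CompactSpace M] [ChartedSpace E M] [IsManifold 𝓘(ℝ, E) ∞ M]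
  {F : Type*} [NormedAddCommGroup F] [InnerProductSpace ℝ F]
  {F' : Type*} [NormedAddCommGroup F'] [NormedSpace ℝ F']

/-- `C¹` maps are Lipschitz for the metric of an embedding. -/
theorem c1_lip (e : M → F) (hiso : ∀ x y, dist x y = ‖e x - e y‖)
    (he : ContMDiff 𝓘(ℝ, E) 𝓘(ℝ, F) 1 e) (hinj : ∀ x, Function.Injective (dm E e x))
    (v : M → F') (hv : ContMDiff 𝓘(ℝ, E) 𝓘(ℝ, F') 1 v) : ∃ L : ℝ≥0, LipschitzWith L v := by
  have hloc : LocallyLipschitz v := by
    intro x₀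
    set κ := extChartAt 𝓘(ℝ, E) x₀ with hκ
    have h1 : ContDiffAt ℝ 1 (hatMap v x₀) (κ x₀) :=
      hatMap_contDiffAt v hv x₀ _ (mem_extChartAt_target x₀)
    obtain ⟨K, t, ht, hK⟩ := h1.exists_lipschitzOnWith
    obtain ⟨C, hC, W, hW, hWs, hWC⟩ := chart_lip e hiso he hinj x₀
    refine ⟨K * C.toNNReal, W ∩ κ ⁻¹' t, ?_, ?_⟩
    · exact inter_mem hW ((continuousAt_extChartAt x₀).preimage_mem_nhds ht)
    · apply LipschitzOnWith.of_dist_le_mul
      intro x hx y hy
      have hx1 : hatMap v x₀ (κ x) = v x := by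
        show v (κ.symm (κ x)) = v x
        rw [κ.left_inv (hWs hx.1)]
      have hy1 : hatMap v x₀ (κ y) = v y := by
        show v (κ.symm (κ y)) = v y
        rw [κ.left_inv (hWs hy.1)]
      have h2 := hK.dist_le_mul _ hx.2 _ hy.2
      rw [hx1, hy1] at h2
      refine h2.trans ?_
      have h3 := hWC x hx.1 y hy.1
      rw [dist_eq_norm (κ x)]
      push_cast
      rw [Real.coe_toNNReal C hC, mul_assoc]
      exact mul_le_mul_of_nonneg_left h3 K.coe_nonneg
  have hloc' : LocallyLipschitzOn univ v := hloc.locallyLipschitzOn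
  obtain ⟨L, hL⟩ := hloc'.exists_lipschitzOnWith_of_compact isCompact_univ
  exact ⟨L, lipschitzOnWith_univ.mp hL⟩

end lip

section hold

variable {X E : Type*} [MetricSpace X] [NormedAddCommGroup E] [NormedSpace ℝ E]

theorem rpow_add_le {a b α : ℝ} (ha : 0 ≤ a) (hb : 0 ≤ b) (hα : 0 ≤ α) (hα1 : α ≤ 1) :
    (a + b) ^ α ≤ a ^ α + b ^ α := by
  lift a to ℝ≥0 using ha
  lift b to ℝ≥0 using hb
  exact_mod_cast NNReal.rpow_add_le_add_rpow a b hα hα1

theorem half_rpow (k : ℕ) (α : ℝ) : ((1 / 2 : ℝ) ^ k) ^ α = ((1 / 2 : ℝ) ^ α) ^ k := by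
  rw [← Real.rpow_natCast, ← Real.rpow_mul (by norm_num), mul_comm, Real.rpow_mul (by norm_num),
    Real.rpow_natCast]

theorem geom_le {θ : ℝ} (h0 : 0 ≤ θ) (h1 : θ < 1) (n : ℕ) :
    ∑ k ∈ Finset.range n, θ ^ k ≤ 1 / (1 - θ) := by
  rw [one_div, ← tsum_geometric_of_lt_one h0 h1]
  exact (summable_geometric_of_lt_one h0 h1).sum_le_tsum _ fun i _ => pow_nonneg h0 i

/-- Hölder functions have the Walters property for hyperbolic systems. -/
theorem hold_walt [CompactSpace X] (S : HypSys X E) {c : ℝ} (h : LP S.g c) {Φ : X → ℝ}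
    {α C : ℝ} (hα : 0 < α) (hα1 : α ≤ 1) (hC : 0 ≤ C)
    (hΦ : ∀ x y, |Φ x - Φ y| ≤ C * dist x y ^ α) : Walt S.g Φ := by
  obtain ⟨ε₁, hε₁, hs⟩ := contrS_iter S
  obtain ⟨ε₂, hε₂, hu⟩ := contrS_iter S.symm
  intro ε hε
  set θ : ℝ := (1 / 2 : ℝ) ^ α with hθ
  have hθ0 : 0 ≤ θ := by positivity
  have hθ1 : θ < 1 := Real.rpow_lt_one (by norm_num) (by norm_num) hα
  have h1θ : 0 < 1 - θ := by linarith
  set η : ℝ := (ε * (1 - θ) / (2 * (C + 1))) ^ (1 / α) with hη
  have hη0 : 0 < η := by positivity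
  have hηα : η ^ α = ε * (1 - θ) / (2 * (C + 1)) := by
    rw [hη, ← Real.rpow_mul (by positivity), one_div, inv_mul_cancel₀ hα.ne', Real.rpow_one]
  set ε' := min (η / 2) (min (ε₁ / 2) ε₂) with hε'
  have hε'0 : 0 < ε' := lt_min (by linarith) (lt_min (by linarith) hε₂)
  have hε'1 : ε' ≤ η / 2 := min_le_left _ _
  have hε'2 : ε' ≤ ε₁ / 2 := (min_le_right _ _).trans (min_le_left _ _)
  have hε'3 : ε' ≤ ε₂ := (min_le_right _ _).trans (min_le_right _ _)
  obtain ⟨δ, hδ, hlp⟩ := h.lp ε' hε'0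
  refine ⟨min (δ / 2) ε', lt_min (half_pos hδ) hε'0, fun n x y hxy => ?_⟩
  rcases Nat.eq_zero_or_pos n with h0 | h0
  · subst h0
    simpa using hε.le
  obtain ⟨q, rfl⟩ : ∃ q, n = q + 1 := ⟨n - 1, by omega⟩
  have hxyε : ∀ k < q + 1, dist (S.g^[k] x) (S.g^[k] y) ≤ ε' := fun k hk =>
    (hxy k hk).trans (min_le_right _ _)
  obtain ⟨z', hz1, hz2⟩ := hlp (S.g^[q] x) (S.g^[q] y)
    (lt_of_le_of_lt ((hxy q (by omega)).trans (min_le_left _ _)) (by linarith))
  have eback : ∀ (v : X) (i : ℕ), i ≤ q → S.g^[i] (S.g.symm^[q] v) = S.g.symm^[q - i] v := by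
    intro v i hi
    have : S.g.symm^[q] v = S.g.symm^[i] (S.g.symm^[q - i] v) := by
      rw [← Function.iterate_add_apply]; congr 1; omega
    rw [this, iterR]
  have eback' : ∀ (v : X) (i : ℕ), i ≤ q → S.g.symm^[q - i] (S.g^[q] v) = S.g^[i] v := by
    intro v i hi
    have : S.g^[q] v = S.g^[q - i] (S.g^[i] v) := by
      rw [← Function.iterate_add_apply]; congr 1; omega
    rw [this, iterL]
  set w := S.g.symm^[q] z' with hw
  have hyw : ∀ k ≤ q, dist (S.g^[k] y) (S.g^[k] w) ≤ (1 / 2) ^ (q - k) * ε' := by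
    intro k hk
    have h1 : dist (S.g.symm^[q - k] (S.g^[q] y)) (S.g.symm^[q - k] z') ≤
        (1 / 2) ^ (q - k) * dist (S.g^[q] y) z' :=
      hu (S.g^[q] y) z' (fun j => (hz2 j).trans hε'3) (q - k)
    rw [eback' y k hk] at h1
    rw [hw, eback z' k hk]
    have h2 : dist (S.g^[q] y) z' ≤ ε' := hz2 0
    exact h1.trans (mul_le_mul_of_nonneg_left h2 (by positivity))
  have hxw : ∀ k : ℕ, dist (S.g^[k] x) (S.g^[k] w) ≤ ε₁ := by
    intro k
    rcases le_total k q with hk | hk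
    · have h1 := hyw k hk
      have h2 := hxyε k (by omega)
      have h3 : (1 / 2 : ℝ) ^ (q - k) ≤ 1 := pow_le_one₀ (by norm_num) (by norm_num)
      have h4 := dist_triangle (S.g^[k] x) (S.g^[k] y) (S.g^[k] w)
      nlinarith
    · have e1 : S.g^[k] x = S.g^[k - q] (S.g^[q] x) := by
        rw [← Function.iterate_add_apply]; congr 1; omega
      have e2 : S.g^[k] w = S.g^[k - q] z' := by
        have : S.g^[k] w = S.g^[k - q] (S.g^[q] w) := by
          rw [← Function.iterate_add_apply S.g (k - q) q]; congr 1; omega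
        rw [this, hw, iterR]
      rw [e1, e2]
      have := hz1 (k - q)
      linarith
  have hxw' : ∀ k : ℕ, dist (S.g^[k] x) (S.g^[k] w) ≤ (1 / 2) ^ k * (2 * ε') := by
    intro k
    have h1 := hs x w hxw k
    have h2 := hyw 0 (Nat.zero_le q)
    have h3 := hxyε 0 (by omega)
    simp only [Function.iterate_zero, id_eq, Nat.sub_zero] at h2 h3
    have h4 : (1 / 2 : ℝ) ^ q ≤ 1 := pow_le_one₀ (by norm_num) (by norm_num)
    have h5 := dist_triangle x y w
    have h6 : dist x w ≤ 2 * ε' := by nlinarith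
    exact h1.trans (mul_le_mul_of_nonneg_left h6 (by positivity))
  have hd : ∀ k ≤ q, dist (S.g^[k] x) (S.g^[k] y) ≤ η * (1 / 2) ^ k + η * (1 / 2) ^ (q - k) := by
    intro k hk
    have h1 := hxw' k
    have h2 := hyw k hk
    have h3 := dist_triangle (S.g^[k] x) (S.g^[k] w) (S.g^[k] y)
    rw [dist_comm (S.g^[k] w) (S.g^[k] y)] at h3
    have p1 : (0 : ℝ) < (1 / 2) ^ k := by positivity
    have p2 : (0 : ℝ) < (1 / 2) ^ (q - k) := by positivity
    have h4 : (1 / 2 : ℝ) ^ k * (2 * ε') ≤ η * (1 / 2) ^ k := by nlinarith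
    have h5 : (1 / 2 : ℝ) ^ (q - k) * ε' ≤ η * (1 / 2) ^ (q - k) := by nlinarith
    linarith
  have hk : ∀ k ∈ Finset.range (q + 1), |Φ (S.g^[k] x) - Φ (S.g^[k] y)| ≤
      C * η ^ α * (θ ^ k + θ ^ (q - k)) := by
    intro k hk
    rw [Finset.mem_range] at hk
    refine (hΦ _ _).trans ?_
    rw [mul_assoc]
    apply mul_le_mul_of_nonneg_left _ hC
    calc dist (S.g^[k] x) (S.g^[k] y) ^ α
        ≤ (η * (1 / 2) ^ k + η * (1 / 2) ^ (q - k)) ^ α :=
          Real.rpow_le_rpow dist_nonneg (hd k (by omega)) hα.le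
      _ ≤ (η * (1 / 2) ^ k) ^ α + (η * (1 / 2) ^ (q - k)) ^ α :=
          rpow_add_le (by positivity) (by positivity) hα.le hα1
      _ = η ^ α * (θ ^ k + θ ^ (q - k)) := by
          rw [Real.mul_rpow hη0.le (by positivity), Real.mul_rpow hη0.le (by positivity),
            half_rpow, half_rpow, hθ]
          ring
  have e3 : birkhoffSum S.g Φ (q + 1) x - birkhoffSum S.g Φ (q + 1) y =
      ∑ k ∈ Finset.range (q + 1), (Φ (S.g^[k] x) - Φ (S.g^[k] y)) := by
    simp only [birkhoffSum, Finset.sum_sub_distrib]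
  rw [e3]
  have hg1 := geom_le hθ0 hθ1 (q + 1)
  have hg2 : ∑ k ∈ Finset.range (q + 1), θ ^ (q - k) ≤ 1 / (1 - θ) := by
    have h1 := Finset.sum_range_reflect (fun i : ℕ => θ ^ i) (q + 1)
    simp only [Nat.add_sub_cancel] at h1
    rw [h1]
    exact hg1
  calc |∑ k ∈ Finset.range (q + 1), (Φ (S.g^[k] x) - Φ (S.g^[k] y))|
      ≤ ∑ k ∈ Finset.range (q + 1), |Φ (S.g^[k] x) - Φ (S.g^[k] y)| :=
        Finset.abs_sum_le_sum_abs _ _
    _ ≤ ∑ k ∈ Finset.range (q + 1), C * η ^ α * (θ ^ k + θ ^ (q - k)) := Finset.sum_le_sum hk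
    _ = C * η ^ α * (∑ k ∈ Finset.range (q + 1), θ ^ k +
        ∑ k ∈ Finset.range (q + 1), θ ^ (q - k)) := by
        rw [← Finset.mul_sum, Finset.sum_add_distrib]
    _ ≤ C * η ^ α * (1 / (1 - θ) + 1 / (1 - θ)) := by
        apply mul_le_mul_of_nonneg_left _ (by positivity)
        linarith
    _ ≤ ε := by
        rw [hηα]
        have h5 : C * (ε * (1 - θ) / (2 * (C + 1))) * (1 / (1 - θ) + 1 / (1 - θ)) =
            ε * (C / (C + 1)) := by
          field_simp
          ring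
        rw [h5]
        have h6 : C / (C + 1) ≤ 1 := by
          rw [div_le_one (by linarith)]
          linarith
        nlinarith

end hold

end Pool.Agent.V7H85.LV
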