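import Pool.Agent.V7H85.LV.D
import Pool.Agent.V7H85.LV.E
import Pool.Agent.Y321.PJ.Main

set_option autoImplicit false
set_option linter.unusedSectionVars false

open scoped Manifold ContDiff NNReal
open Filter Topology Set Metric MeasureTheory

namespace Pool.Agent.V7H85.LV

open Pool.Agent.H789R2.AN Pool.Agent.H721R2 Pool.Agent.Y321.PJ Pool.Agent.N520.T Pool.Agent.Y330.G

universe u

variable {E : Type*} [NormedAddCommGroup E] [NormedSpace ℝ E] [FiniteDimensional ℝ E]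

/-- A metric model in which a power is a hyperbolic system and `C¹` maps are Lipschitz. -/
theorem exists_model3 {M : Type u} [TopologicalSpace M] [T2Space M] [CompactSpace M]
    [ChartedSpace E M] [IsManifold 𝓘(ℝ, E) ∞ M] (f : Diffeomorph 𝓘(ℝ, E) 𝓘(ℝ, E) M M 1)
    (Es Eu : ∀ x : M, Submodule ℝ (TangentSpace 𝓘(ℝ, E) x)) (hA : IsAnosov f Es Eu) :
    ∃ (Y : Type u) (_ : MetricSpace Y) (_ : CompactSpace Y) (m : ℕ) (h : M ≃ₜ Y) (f' : Y ≃ₜ Y)
      (N : ℕ) (S : HypSys Y (EuclideanSpace ℝ (Fin m))),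
      (∀ x, h (f x) = f' (h x)) ∧ 1 ≤ N ∧ S.g = iterHomeo f' N ∧
      ∀ (d : ℕ) (v : M → (Fin d → ℝ)), ContMDiff 𝓘(ℝ, E) 𝓘(ℝ, Fin d → ℝ) 1 v →
        ∃ L : ℝ, 0 ≤ L ∧ ∀ x y : Y, ‖v (h.symm x) - v (h.symm y)‖ ≤ L * dist x y := by
  obtain ⟨m, e, he, hemb, hinj⟩ := exists_embedding_euclidean_of_compact (I := 𝓘(ℝ, E)) (M := M)
  let iY : MetricSpace M := hemb.isEmbedding.comapMetricSpace e
  have hiso : ∀ x y : M, dist x y = ‖e x - e y‖ := fun x y => dist_eq_norm (e x) (e y)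
  have he1 : ContMDiff 𝓘(ℝ, E) (𝓡 m) 1 e := he.of_le (by simp)
  have i1 : IsManifold 𝓘(ℝ, E) 1 M := IsManifold.of_le (n := ∞) (by simp)
  obtain ⟨N, S, hN, hg⟩ := exists_sys1 hiso he1 hinj f Es Eu hA
  refine ⟨M, iY, inferInstance, m, Homeomorph.refl M, f.toHomeomorph, N, S, fun _ => rfl, hN, hg,
    fun d v hv => ?_⟩
  obtain ⟨L, hL⟩ := c1_lip e hiso he1 hinj v hv
  exact ⟨L, L.coe_nonneg, fun x y => by
    have := hL.dist_le_mul x y
    rwa [dist_eq_norm] at this⟩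

end Pool.Agent.V7H85.LV
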